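import Pool.Agent.TH525.FRG.Basic
import Pool.Agent.TH525.FRG.Quot
import Pool.Agent.TH525.FRG.Hom
import Pool.Agent.W111.LAR.Girth

/-!
Linear arboricity of line graphs of bipartite graphs.
-/

set_option autoImplicit false

namespace Pool.Agent.U348.LG

open SimpleGraph H931R3.LA

/-- a graph whose square has a proper colouring with `a` colours -/
theorem cov_square {V : Type} [Finite V] (G : SimpleGraph V) (a : ℕ) (f : V → ℕ)
    (hf : ∀ v, f v < a) (hne : ∀ u v, G.Adj u v → f u ≠ f v)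
    (hin : ∀ u v w, G.Adj u v → G.Adj u w → f v = f w → v = w) : Cov G ((a + 1) / 2) := by
  have h := Pool.Agent.TH525.FRG.cov_of_frugal G a 1 f hf hne (by
    intro u j
    rw [Set.ncard_le_one (Set.toFinite _)]
    rintro x ⟨hx, hx'⟩ y ⟨hy, hy'⟩
    exact hin u x y hx hy (by rw [hx', hy']))
  rwa [one_mul] at h

theorem cov_two {V : Type} [Finite V] (G₁ G₂ : SimpleGraph V) (a b : ℕ) (f g : V → ℕ)
    (hf : ∀ v, f v < a) (hne : ∀ u v, G₁.Adj u v → f u ≠ f v)
    (hin : ∀ u v w, G₁.Adj u v → G₁.Adj u w → f v = f w → v = w)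
    (hg : ∀ v, g v < b) (gne : ∀ u v, G₂.Adj u v → g u ≠ g v)
    (gin : ∀ u v w, G₂.Adj u v → G₂.Adj u w → g v = g w → v = w) :
    Cov (G₁ ⊔ G₂) ((a + 1) / 2 + (b + 1) / 2) :=
  Pool.Agent.W111.LAR.cov_sup (cov_square G₁ a f hf hne hin) (cov_square G₂ b g hg gne gin)

/-- numbers of the neighbours -/
theorem exists_idx {U : Type} [Finite U] (H : SimpleGraph U) (u : U) :
    ∃ g : U → ℕ, (∀ v, H.Adj u v → g v < (H.neighborSet u).ncard) ∧
      ∀ v w, H.Adj u v → H.Adj u w → g v = g w → v = w := by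
  classical
  let e := Finite.equivFin (H.neighborSet u)
  refine ⟨fun v => if h : H.Adj u v then (e ⟨v, h⟩).val else 0, ?_, ?_⟩
  · intro v hv
    simp only [dif_pos hv]
    exact (e ⟨v, hv⟩).2.trans_eq (Nat.card_coe_set_eq _)
  · intro v w hv hw h
    simp only [dif_pos hv, dif_pos hw] at h
    have h1 := e.injective (Fin.ext h)
    exact congrArg Subtype.val h1

/-- the line graph of a bipartite graph -/
theorem line_cov {U : Type} [Finite U] (H : SimpleGraph U) (X : Set U) (a b : ℕ)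
    (hX : ∀ u v, H.Adj u v → (u ∈ X ↔ v ∉ X))
    (ha : ∀ u ∈ X, (H.neighborSet u).ncard ≤ a) (hb : ∀ u, u ∉ X → (H.neighborSet u).ncard ≤ b) :
    Cov H.lineGraph ((a + 1) / 2 + (b + 1) / 2) := by
  classical
  have hex : ∀ e : H.edgeSet, ∃ x y, x ∈ X ∧ y ∉ X ∧ H.Adj x y ∧ (e : Sym2 U) = s(x, y) := by
    rintro ⟨⟨x, y⟩, hxy⟩
    have hxy' : H.Adj x y := hxy
    by_cases hx : x ∈ X
    · exact ⟨x, y, hx, (hX x y hxy').1 hx, hxy', rfl⟩
    · have hy : y ∈ X := by
        by_contra hy
        exact hx ((hX x y hxy').2 hy)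
      exact ⟨y, x, hy, hx, hxy'.symm, Sym2.eq_swap⟩
  choose x y hx hy hxy he using hex
  choose g hg1 hg2 using exists_idx H
  let G₁ : SimpleGraph H.edgeSet :=
    { Adj := fun e e' => e ≠ e' ∧ x e = x e'
      symm := ⟨fun e e' h => ⟨h.1.symm, h.2.symm⟩⟩
      loopless := ⟨fun e h => h.1 rfl⟩ }
  let G₂ : SimpleGraph H.edgeSet :=
    { Adj := fun e e' => e ≠ e' ∧ y e = y e'
      symm := ⟨fun e e' h => ⟨h.1.symm, h.2.symm⟩⟩
      loopless := ⟨fun e h => h.1 rfl⟩ }
  have hext : ∀ e e', x e = x e' → y e = y e' → e = e' := by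
    intro e e' h1 h2
    apply Subtype.ext
    rw [he e, he e', h1, h2]
  have hsup : H.lineGraph = G₁ ⊔ G₂ := by
    ext e e'
    rw [lineGraph_adj_iff_exists, sup_adj]
    constructor
    · rintro ⟨hne, z, hz, hz'⟩
      have h1 : z ∈ s(x e, y e) := by rw [← he e]; exact hz
      have h2 : z ∈ s(x e', y e') := by rw [← he e']; exact hz'
      rw [Sym2.mem_iff] at h1 h2
      by_cases hzX : z ∈ X
      · left
        refine ⟨hne, ?_⟩
        have h3 : z = x e := h1.resolve_right (fun h => hy e (h ▸ hzX))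
        have h4 : z = x e' := h2.resolve_right (fun h => hy e' (h ▸ hzX))
        rw [← h3, ← h4]
      · right
        refine ⟨hne, ?_⟩
        have h3 : z = y e := h1.resolve_left (fun h => hzX (h ▸ hx e))
        have h4 : z = y e' := h2.resolve_left (fun h => hzX (h ▸ hx e'))
        rw [← h3, ← h4]
    · rintro (⟨hne, h⟩ | ⟨hne, h⟩)
      · refine ⟨hne, x e, ?_, ?_⟩
        · change x e ∈ (e : Sym2 U)
          rw [he e]
          exact Sym2.mem_mk_left _ _
        · change x e ∈ (e' : Sym2 U)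
          rw [he e', h]
          exact Sym2.mem_mk_left _ _
      · refine ⟨hne, y e, ?_, ?_⟩
        · change y e ∈ (e : Sym2 U)
          rw [he e]
          exact Sym2.mem_mk_right _ _
        · change y e ∈ (e' : Sym2 U)
          rw [he e', h]
          exact Sym2.mem_mk_right _ _
  rw [hsup]
  refine cov_two G₁ G₂ a b (fun e => g (x e) (y e)) (fun e => g (y e) (x e)) ?_ ?_ ?_ ?_ ?_ ?_
  · intro e
    exact (hg1 _ _ (hxy e)).trans_le (ha _ (hx e))
  · rintro e e' ⟨hne, h⟩ h2
    apply hne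
    have h3 : H.Adj (x e) (y e') := by rw [h]; exact hxy e'
    have h2' : g (x e) (y e) = g (x e') (y e') := h2
    rw [← h] at h2'
    exact hext e e' h (hg2 _ _ _ (hxy e) h3 h2')
  · rintro u e e' ⟨-, h⟩ ⟨-, h'⟩ h2
    have h2' : g (x e) (y e) = g (x e') (y e') := h2
    have h4 : x e = x e' := h.symm.trans h'
    rw [← h4] at h2'
    have h3 : H.Adj (x e) (y e') := by rw [h4]; exact hxy e'
    exact hext e e' h4 (hg2 _ _ _ (hxy e) h3 h2')
  · intro e
    exact (hg1 _ _ (hxy e).symm).trans_le (hb _ (hy e))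
  · rintro e e' ⟨hne, h⟩ h2
    apply hne
    have h3 : H.Adj (y e) (x e') := by rw [h]; exact (hxy e').symm
    have h2' : g (y e) (x e) = g (y e') (x e') := h2
    rw [← h] at h2'
    exact hext e e' (hg2 _ _ _ (hxy e).symm h3 h2') h
  · rintro u e e' ⟨-, h⟩ ⟨-, h'⟩ h2
    have h2' : g (y e) (x e) = g (y e') (x e') := h2
    have h4 : y e = y e' := h.symm.trans h'
    rw [← h4] at h2'
    have h3 : H.Adj (y e) (x e') := by rw [h4]; exact (hxy e').symm
    exact hext e e' (hg2 _ _ _ (hxy e).symm h3 h2') h4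

theorem line_deg {U : Type} [Finite U] (H : SimpleGraph U) (x y : U) (hxy : s(x, y) ∈ H.edgeSet) :
    (H.lineGraph.neighborSet ⟨s(x, y), hxy⟩).ncard =
      ((H.neighborSet x).ncard - 1) + ((H.neighborSet y).ncard - 1) := by
  classical
  have hxy' : H.Adj x y := hxy
  have hne : x ≠ y := hxy'.ne
  have h1 : H.lineGraph.neighborSet ⟨s(x, y), hxy⟩ =
      (fun e' : H.edgeSet => (e' : Sym2 U)) ⁻¹'
        ((fun z => s(x, z)) '' (H.neighborSet x \ {y}) ∪
          (fun z => s(y, z)) '' (H.neighborSet y \ {x})) := by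
    ext e'
    rw [mem_neighborSet, lineGraph_adj_iff_exists, Set.mem_preimage]
    constructor
    · rintro ⟨hne', z, hz, hz'⟩
      have hz2 : z ∈ s(x, y) := hz
      rw [Sym2.mem_iff] at hz2
      obtain ⟨w, hw⟩ := hz'
      have hadj : H.Adj z w := by
        have := e'.2
        rw [hw] at this
        exact this
      rcases hz2 with rfl | rfl
      · left
        refine ⟨w, ⟨hadj, ?_⟩, hw.symm⟩
        intro h
        rw [Set.mem_singleton_iff] at h
        subst h
        exact hne' (Subtype.ext hw.symm)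
      · right
        refine ⟨w, ⟨hadj, ?_⟩, hw.symm⟩
        intro h
        rw [Set.mem_singleton_iff] at h
        subst h
        exact hne' (Subtype.ext (by rw [hw]; exact Sym2.eq_swap))
    · rintro (⟨w, ⟨hw, hw'⟩, he⟩ | ⟨w, ⟨hw, hw'⟩, he⟩)
      · refine ⟨?_, x, ?_, ?_⟩
        · intro h
          have h2 : s(x, y) = s(x, w) :=
            (congrArg Subtype.val h).trans he.symm
          rw [Sym2.eq_iff] at h2
          rcases h2 with ⟨_, h2⟩ | ⟨h2, h3⟩
          · exact hw' h2.symm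
          · exact hne h3.symm
        · exact Sym2.mem_mk_left x y
        · rw [← he]; exact Sym2.mem_mk_left x w
      · refine ⟨?_, y, ?_, ?_⟩
        · intro h
          have h2 : s(x, y) = s(y, w) :=
            (congrArg Subtype.val h).trans he.symm
          rw [Sym2.eq_iff] at h2
          rcases h2 with ⟨h2, _⟩ | ⟨h2, h3⟩
          · exact hne h2
          · exact hw' h2.symm
        · exact Sym2.mem_mk_right x y
        · rw [← he]; exact Sym2.mem_mk_left y w
  rw [h1, Set.ncard_preimage_of_injective_subset_range Subtype.val_injective]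
  · rw [Set.ncard_union_eq]
    · rw [Set.ncard_image_of_injective, Set.ncard_image_of_injective,
        Set.ncard_sdiff_singleton_of_mem (show y ∈ H.neighborSet x from hxy'),
        Set.ncard_sdiff_singleton_of_mem (show x ∈ H.neighborSet y from hxy'.symm)]
      · intro a b hab
        have hab' : s(y, a) = s(y, b) := hab
        exact Sym2.congr_right.1 hab'
      · intro a b hab
        have hab' : s(x, a) = s(x, b) := hab
        exact Sym2.congr_right.1 hab'
    · rw [Set.disjoint_left]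
      rintro _ ⟨a, ⟨ha, ha'⟩, rfl⟩ ⟨b, ⟨hb, hb'⟩, h⟩
      have h2 : s(y, b) = s(x, a) := h
      rw [Sym2.eq_iff] at h2
      rcases h2 with ⟨h2, _⟩ | ⟨h2, h3⟩
      · exact hne h2.symm
      · exact ha' h2.symm
  · rintro _ (⟨a, ⟨ha, _⟩, rfl⟩ | ⟨a, ⟨ha, _⟩, rfl⟩)
    · exact ⟨⟨s(x, a), ha⟩, rfl⟩
    · exact ⟨⟨s(y, a), ha⟩, rfl⟩

end Pool.Agent.U348.LG
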